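import Pool.Agent.Helper68.Dom.Goals

/-!
# DOM-FIN: the final structure of case B contains `K331 n` as a spanning subgraph
-/

set_option autoImplicit false

namespace NApexGraphs.Dom.Helper88

open SimpleGraph NApexGraphs NApexGraphs.Dom NApexGraphs.Dom.Goals

theorem card_four {V : Type} [DecidableEq V] {a b c d : V} (hab : a ≠ b) (hac : a ≠ c)
    (had : a ≠ d) (hbc : b ≠ c) (hbd : b ≠ d) (hcd : c ≠ d) :
    ({a, b, c, d} : Finset V).card = 4 := by
  rw [Finset.card_insert_of_notMem, Finset.card_insert_of_notMem, Finset.card_insert_of_notMem,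
    Finset.card_singleton]
  · simpa using hcd
  · simp only [Finset.mem_insert, Finset.mem_singleton, not_or]
    exact ⟨hbc, hbd⟩
  · simp only [Finset.mem_insert, Finset.mem_singleton, not_or]
    exact ⟨hab, hac, had⟩

theorem card_sdiff4 {V : Type} [DecidableEq V] {N : Finset V} {n : ℕ} (hN : N.card = n + 2)
    {a b c d : V} (ha : a ∈ N) (hb : b ∈ N) (hc : c ∈ N) (hd : d ∈ N) (hab : a ≠ b) (hac : a ≠ c)
    (had : a ≠ d) (hbc : b ≠ c) (hbd : b ≠ d) (hcd : c ≠ d) :
    (N \ {a, b, c, d}).card + 2 = n := by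
  have h1 : ({a, b, c, d} : Finset V) ⊆ N := by
    intro v hv
    simp only [Finset.mem_insert, Finset.mem_singleton] at hv
    rcases hv with rfl | rfl | rfl | rfl <;> assumption
  have h2 := Finset.card_sdiff_add_card_eq_card h1
  rw [card_four hab hac had hbc hbd hcd] at h2
  omega

theorem gFIN : Goals.DEG3 → Goals.OCTA → Goals.FIN := by
  classical
  intro hDEG hOCTA V _ G n u x y z N hn hS hF
  have hxN : ∀ v ∈ N, G.Adj x v := fun v hv => (hF.nx v).2 (Or.inl hv)
  have hyN : ∀ v ∈ N, G.Adj y v := fun v hv => (hF.ny v).2 (Or.inl hv)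
  have hzN : ∀ v ∈ N, G.Adj z v := fun v hv => (hF.nz v).2 (Or.inl hv)
  have neN : ∀ v ∈ N, v ≠ u ∧ v ≠ x ∧ v ≠ y ∧ v ≠ z := by
    intro v hv
    refine ⟨?_, ?_, ?_, ?_⟩
    · rintro rfl; exact hF.hu hv
    · rintro rfl; exact hF.hx hv
    · rintro rfl; exact hF.hy hv
    · rintro rfl; exact hF.hz hv
  -- at most two non-neighbours
  have two : ∀ a ∈ N, ∀ b ∈ N, ∀ c ∈ N, ∀ d ∈ N, a ≠ b → a ≠ c → a ≠ d → b ≠ c → b ≠ d →
      c ≠ d → ¬ G.Adj a b → ¬ G.Adj a c → ¬ G.Adj a d → False := by
    intro a ha b hb c hc d hd hab hac had hbc hbd hcd nab nac nad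
    have h1 := hDEG V G n u a hS (neN a ha).1
    have hsub : G.neighborSet a ⊆
        (((N \ {a, b, c, d}) ∪ {u, x, y, z} : Finset V) : Set V) := by
      intro v hv
      rw [SimpleGraph.mem_neighborSet] at hv
      rw [Finset.mem_coe, Finset.mem_union, Finset.mem_sdiff]
      rcases hF.all v with h | h | h | h | h
      · left
        refine ⟨h, ?_⟩
        simp only [Finset.mem_insert, Finset.mem_singleton, not_or]
        refine ⟨?_, ?_, ?_, ?_⟩
        · rintro rfl; exact G.irrefl hv
        · rintro rfl; exact nab hv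
        · rintro rfl; exact nac hv
        · rintro rfl; exact nad hv
      · right; simp [h]
      · right; simp [h]
      · right; simp [h]
      · right; simp [h]
    have h2 := Set.ncard_le_ncard hsub (Finset.finite_toSet _)
    rw [Set.ncard_coe_finset] at h2
    have h3 := Finset.card_union_le (N \ {a, b, c, d}) {u, x, y, z}
    have h4 := card_sdiff4 hF.card ha hb hc hd hab hac had hbc hbd hcd
    have h5 : ({u, x, y, z} : Finset V).card ≤ 4 := Finset.card_le_four
    omega
  -- no two disjoint non-edges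
  have meet : ∀ a ∈ N, ∀ b ∈ N, ∀ c ∈ N, ∀ d ∈ N, a ≠ b → a ≠ c → a ≠ d → b ≠ c → b ≠ d →
      c ≠ d → ¬ G.Adj a b → ¬ G.Adj c d → False := by
    intro a ha b hb c hc d hd hab hac had hbc hbd hcd nab ncd
    have hnodup : [y, z, a, b, c, d].Nodup := by
      obtain ⟨_, _, ay, az⟩ := neN a ha
      obtain ⟨_, _, by', bz⟩ := neN b hb
      obtain ⟨_, _, cy, cz⟩ := neN c hc
      obtain ⟨_, _, dy, dz⟩ := neN d hd
      simp only [List.nodup_cons, List.mem_cons, List.not_mem_nil, or_false, not_or,
        not_false_eq_true, List.nodup_nil, and_true]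
      exact ⟨⟨hF.yz, ay.symm, by'.symm, cy.symm, dy.symm⟩, ⟨az.symm, bz.symm, cz.symm, dz.symm⟩,
        ⟨hab, hac, had⟩, ⟨hbc, hbd⟩, hcd⟩
    have nyz : ¬ G.Adj y z := by
      intro h
      rcases (hF.ny z).1 h with h | h
      · exact hF.hz h
      · exact hF.uz h.symm
    have hpl := hOCTA V G y z a b c d hnodup nyz nab ncd
    have hX : (N \ {a, b, c, d} ∪ {u, x} : Finset V).card ≤ n := by
      have h3 := Finset.card_union_le (N \ {a, b, c, d}) {u, x}
      have h4 := card_sdiff4 hF.card ha hb hc hd hab hac had hbc hbd hcd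
      have h5 : ({u, x} : Finset V).card ≤ 2 := Finset.card_le_two
      omega
    refine hS.non _ hX (hpl.mono le_rfl ?_)
    intro v hv
    rw [Set.mem_compl_iff, Finset.mem_coe, Finset.mem_union, Finset.mem_sdiff] at hv
    simp only [Set.mem_insert_iff, Set.mem_singleton_iff]
    rcases hF.all v with h | h | h | h | h
    · by_contra hcon
      apply hv
      left
      refine ⟨h, ?_⟩
      simp only [Finset.mem_insert, Finset.mem_singleton]
      tauto
    · exact absurd (Or.inr (by simp [h])) hv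
    · exact absurd (Or.inr (by simp [h])) hv
    · exact Or.inl h
    · exact Or.inr (Or.inl h)
  -- the set `T`
  have hT : ∃ T ⊆ N, T.card = 3 ∧ ∀ a ∈ N, ∀ b ∈ N, a ≠ b → ¬ G.Adj a b → a ∈ T ∧ b ∈ T := by
    by_cases h2 : ∃ a ∈ N, ∃ b ∈ N, ∃ c ∈ N, a ≠ b ∧ a ≠ c ∧ b ≠ c ∧ ¬ G.Adj a b ∧ ¬ G.Adj a c
    · obtain ⟨a, ha, b, hb, c, hc, hab, hac, hbc, nab, nac⟩ := h2
      have key : ∀ p ∈ N, ∀ q ∈ N, p ≠ q → ¬ G.Adj p q → p ∈ ({a, b, c} : Finset V) := by
        intro p hp q hq hpq npq
        by_contra hpT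
        simp only [Finset.mem_insert, Finset.mem_singleton, not_or] at hpT
        obtain ⟨pa, pb, pc⟩ := hpT
        have hqa : q = a := by
          by_contra hqa
          by_cases hqb : q = b
          · subst hqb
            exact meet a ha c hc p hp q hq hac (Ne.symm pa) hab (Ne.symm pc) hbc.symm pb nac npq
          · exact meet a ha b hb p hp q hq hab (Ne.symm pa) (Ne.symm hqa) (Ne.symm pb)
              (Ne.symm hqb) hpq nab npq
        subst hqa
        exact two q hq b hb c hc p hp hab hac (Ne.symm pa) hbc (Ne.symm pb) (Ne.symm pc) nab nac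
          (fun h => npq h.symm)
      refine ⟨{a, b, c}, ?_, ?_, ?_⟩
      · intro v hv
        simp only [Finset.mem_insert, Finset.mem_singleton] at hv
        rcases hv with rfl | rfl | rfl <;> assumption
      · exact Finset.card_eq_three.2 ⟨a, b, c, hab, hac, hbc, rfl⟩
      · intro p hp q hq hpq npq
        exact ⟨key p hp q hq hpq npq, key q hq p hp hpq.symm (fun h => npq h.symm)⟩
    · by_cases h1 : ∃ a ∈ N, ∃ b ∈ N, a ≠ b ∧ ¬ G.Adj a b
      · obtain ⟨a, ha, b, hb, hab, nab⟩ := h1
        have hex : ∃ c ∈ N, c ≠ a ∧ c ≠ b := by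
          by_contra hcon
          have hsub : N ⊆ {a, b} := by
            intro v hv
            by_contra hv2
            simp only [Finset.mem_insert, Finset.mem_singleton, not_or] at hv2
            exact hcon ⟨v, hv, hv2⟩
          have h3 := Finset.card_le_card hsub
          have h4 : ({a, b} : Finset V).card ≤ 2 := Finset.card_le_two
          have h5 := hF.card
          omega
        obtain ⟨c, hc, hca, hcb⟩ := hex
        have key : ∀ p ∈ N, ∀ q ∈ N, p ≠ q → ¬ G.Adj p q → p ∈ ({a, b, c} : Finset V) := by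
          intro p hp q hq hpq npq
          by_contra hpT
          simp only [Finset.mem_insert, Finset.mem_singleton, not_or] at hpT
          obtain ⟨pa, pb, pc⟩ := hpT
          by_cases hqa : q = a
          · subst hqa
            exact h2 ⟨q, hq, b, hb, p, hp, hab, Ne.symm pa, Ne.symm pb, nab,
              fun h => npq h.symm⟩
          · by_cases hqb : q = b
            · subst hqb
              exact h2 ⟨q, hq, a, ha, p, hp, hab.symm, Ne.symm pb, Ne.symm pa,
                fun h => nab h.symm, fun h => npq h.symm⟩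
            · exact meet a ha b hb p hp q hq hab (Ne.symm pa) (Ne.symm hqa) (Ne.symm pb)
                (Ne.symm hqb) hpq nab npq
        refine ⟨{a, b, c}, ?_, ?_, ?_⟩
        · intro v hv
          simp only [Finset.mem_insert, Finset.mem_singleton] at hv
          rcases hv with rfl | rfl | rfl <;> assumption
        · exact Finset.card_eq_three.2 ⟨a, b, c, hab, hca.symm, hcb.symm, rfl⟩
        · intro p hp q hq hpq npq
          exact ⟨key p hp q hq hpq npq, key q hq p hp hpq.symm (fun h => npq h.symm)⟩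
      · obtain ⟨T, hT1, hT2⟩ := Finset.exists_subset_card_eq (s := N) (n := 3)
          (by rw [hF.card]; omega)
        refine ⟨T, hT1, hT2, ?_⟩
        intro a ha b hb hab nab
        exact absurd ⟨a, ha, b, hb, hab, nab⟩ h1
  obtain ⟨T, hTN, hT3, hTne⟩ := hT
  -- the bijection
  have hA3 : ({x, y, z} : Finset V).card = 3 :=
    Finset.card_eq_three.2 ⟨x, y, z, hF.xy, hF.xz, hF.yz, rfl⟩
  have hC : (insert u (N \ T)).card = n := by
    rw [Finset.card_insert_of_notMem (fun h => hF.hu (Finset.mem_sdiff.1 h).1)]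
    have h1 := Finset.card_sdiff_add_card_eq_card hTN
    have h2 := hF.card
    omega
  let e1 : Fin 3 ≃ ({x, y, z} : Finset V) := (Finset.equivFinOfCardEq hA3).symm
  let e2 : Fin 3 ≃ T := (Finset.equivFinOfCardEq hT3).symm
  let e3 : Fin n ≃ (insert u (N \ T) : Finset V) := (Finset.equivFinOfCardEq hC).symm
  let g : Fin 3 ⊕ Fin 3 ⊕ Fin n → V :=
    Sum.elim (fun i => (e1 i : V)) (Sum.elim (fun i => (e2 i : V)) (fun i => (e3 i : V)))
  have memA : ∀ v, v ∈ ({x, y, z} : Finset V) ↔ v = x ∨ v = y ∨ v = z := by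
    intro v
    simp
  have dAT : ∀ v, v ∈ ({x, y, z} : Finset V) → v ∉ T := by
    intro v hv hvT
    have h1 := neN v (hTN hvT)
    rw [memA] at hv
    tauto
  have dAC : ∀ v, v ∈ ({x, y, z} : Finset V) → v ∉ insert u (N \ T) := by
    intro v hv hvC
    rw [memA] at hv
    rw [Finset.mem_insert, Finset.mem_sdiff] at hvC
    rcases hvC with rfl | ⟨h1, _⟩
    · rcases hv with h | h | h
      · exact hF.ux h
      · exact hF.uy h
      · exact hF.uz h
    · have h2 := neN v h1
      tauto
  have dTC : ∀ v, v ∈ T → v ∉ insert u (N \ T) := by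
    intro v hv hvC
    rw [Finset.mem_insert, Finset.mem_sdiff] at hvC
    rcases hvC with rfl | ⟨_, h2⟩
    · exact hF.hu (hTN hv)
    · exact h2 hv
  have ginj : Function.Injective g := by
    rintro (i | i | i) (j | j | j) hij
    · have h1 : e1 i = e1 j := Subtype.ext hij
      rw [e1.injective h1]
    · exfalso
      have h1 : (e1 i : V) = (e2 j : V) := hij
      exact dAT _ (e1 i).2 (h1 ▸ (e2 j).2)
    · exfalso
      have h1 : (e1 i : V) = (e3 j : V) := hij
      exact dAC _ (e1 i).2 (h1 ▸ (e3 j).2)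
    · exfalso
      have h1 : (e2 i : V) = (e1 j : V) := hij
      exact dAT _ (e1 j).2 (h1 ▸ (e2 i).2)
    · have h1 : e2 i = e2 j := Subtype.ext hij
      rw [e2.injective h1]
    · exfalso
      have h1 : (e2 i : V) = (e3 j : V) := hij
      exact dTC _ (e2 i).2 (h1 ▸ (e3 j).2)
    · exfalso
      have h1 : (e3 i : V) = (e1 j : V) := hij
      exact dAC _ (e1 j).2 (h1 ▸ (e3 i).2)
    · exfalso
      have h1 : (e3 i : V) = (e2 j : V) := hij
      exact dTC _ (e2 j).2 (h1 ▸ (e3 i).2)
    · have h1 : e3 i = e3 j := Subtype.ext hij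
      rw [e3.injective h1]
  have gsurj : Function.Surjective g := by
    intro v
    have h1 : v ∈ ({x, y, z} : Finset V) ∨ v ∈ T ∨ v ∈ insert u (N \ T) := by
      rcases hF.all v with h | h | h | h | h
      · by_cases hvT : v ∈ T
        · exact Or.inr (Or.inl hvT)
        · exact Or.inr (Or.inr (Finset.mem_insert.2 (Or.inr (Finset.mem_sdiff.2 ⟨h, hvT⟩))))
      · exact Or.inr (Or.inr (Finset.mem_insert.2 (Or.inl h)))
      · exact Or.inl ((memA v).2 (Or.inl h))
      · exact Or.inl ((memA v).2 (Or.inr (Or.inl h)))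
      · exact Or.inl ((memA v).2 (Or.inr (Or.inr h)))
    rcases h1 with h | h | h
    · refine ⟨Sum.inl (e1.symm ⟨v, h⟩), ?_⟩
      show ((e1 (e1.symm ⟨v, h⟩) : ({x, y, z} : Finset V)) : V) = v
      rw [e1.apply_symm_apply]
    · refine ⟨Sum.inr (Sum.inl (e2.symm ⟨v, h⟩)), ?_⟩
      show ((e2 (e2.symm ⟨v, h⟩) : T) : V) = v
      rw [e2.apply_symm_apply]
    · refine ⟨Sum.inr (Sum.inr (e3.symm ⟨v, h⟩)), ?_⟩
      show ((e3 (e3.symm ⟨v, h⟩) : (insert u (N \ T) : Finset V)) : V) = v
      rw [e3.apply_symm_apply]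
  -- adjacency
  have hadj : ∀ v w, v ≠ w → ¬ (v ∈ ({x, y, z} : Finset V) ∧ w ∈ ({x, y, z} : Finset V)) →
      ¬ (v ∈ T ∧ w ∈ T) → G.Adj v w := by
    intro v w hvw h1 h2
    by_cases hvu : v = u
    · rw [hvu]
      exact hS.dom w (fun h => hvw (hvu.trans h.symm))
    by_cases hwu : w = u
    · rw [hwu]
      exact (hS.dom v hvu).symm
    by_cases hv : v ∈ N
    · by_cases hw : w ∈ N
      · by_contra hna
        exact h2 (hTne v hv w hw hvw hna)
      · rcases hF.all w with h | h | h | h | h
        · exact absurd h hw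
        · exact absurd h hwu
        · rw [h]; exact (hxN v hv).symm
        · rw [h]; exact (hyN v hv).symm
        · rw [h]; exact (hzN v hv).symm
    · have hvA : v ∈ ({x, y, z} : Finset V) := by
        rw [memA]
        rcases hF.all v with h | h | h | h | h
        · exact absurd h hv
        · exact absurd h hvu
        · exact Or.inl h
        · exact Or.inr (Or.inl h)
        · exact Or.inr (Or.inr h)
      have hwN : w ∈ N := by
        rcases hF.all w with h | h | h | h | h
        · exact h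
        · exact absurd h hwu
        · exact absurd ⟨hvA, (memA w).2 (Or.inl h)⟩ h1
        · exact absurd ⟨hvA, (memA w).2 (Or.inr (Or.inl h))⟩ h1
        · exact absurd ⟨hvA, (memA w).2 (Or.inr (Or.inr h))⟩ h1
      rw [memA] at hvA
      rcases hvA with h | h | h
      · rw [h]; exact hxN w hwN
      · rw [h]; exact hyN w hwN
      · rw [h]; exact hzN w hwN
  refine ⟨Equiv.ofBijective g ⟨ginj, gsurj⟩, ?_⟩
  intro a b hab
  obtain ⟨hne, hl, hm⟩ := hab
  show G.Adj (g a) (g b)
  refine hadj _ _ (fun h => hne (ginj h)) ?_ ?_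
  · rintro ⟨ha, hb⟩
    apply hl
    constructor
    · rcases a with i | i | i
      · rfl
      · exact absurd (e2 i).2 (dAT _ ha)
      · exact absurd (e3 i).2 (dAC _ ha)
    · rcases b with i | i | i
      · rfl
      · exact absurd (e2 i).2 (dAT _ hb)
      · exact absurd (e3 i).2 (dAC _ hb)
  · rintro ⟨ha, hb⟩
    apply hm
    constructor
    · rcases a with i | i | i
      · exact absurd ha (dAT _ (e1 i).2)
      · exact ⟨i, rfl⟩
      · exact absurd (e3 i).2 (dTC _ ha)
    · rcases b with i | i | i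
      · exact absurd hb (dAT _ (e1 i).2)
      · exact ⟨i, rfl⟩
      · exact absurd (e3 i).2 (dTC _ hb)

end NApexGraphs.Dom.Helper88
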